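import Pool.Agent.Q153.PonagTree

/-!
MP_74305c_gt: a regular space in which Bob has a winning strategy in `PONAG(X)` and which is not
totally paracompact.  The definitions (`Pona`, `BobWinsPonag`, `TotallyParacompact`) are in
`Pool/Agent/Q153/PonagDefs.lean`.

The example (ZFC): let `κ = 2^ω`.  The points of `X` are the finite and the infinite sequences in
`κ⁺`; the infinite sequences are isolated and `U` is open if for every finite sequence `s ∈ U` there
is `α < κ⁺` such that `U` contains all points which extend `s` and whose next entry, if there is
one, is at least `α`.  Sets of at most `κ` points are closed and discrete and every open cover has a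
subcover of at most `κ` sets (closing off, `κ^ω = κ`), so Bob covers `X` in the first round.  The
base which consists of the isolated points and the sets `C(α, s)` of all points which extend `s`
and whose next entry, if there is one, is greater than `α`, or equal to `α` in the case of an
infinite sequence, has no locally finite subcover: a subcover contains sets `C(α_n, s_n)` with
`s_n = (α_0, ..., α_{n-1})`, and all of them contain the infinite sequence `(α_n)`.
-/

set_option autoImplicit false

namespace Pool.Agent.Results.MP_74305c_gt.Disproof

open Set Pool.Agent.Q153.Ponag

/-- There is an infinite regular Hausdorff space `X` with a base of clopen sets such that Bob has a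
winning strategy in `PONAG(X)`, and `X` is not totally paracompact. -/
theorem result : ∃ (X : Type) (_ : TopologicalSpace X), Infinite X ∧ T2Space X ∧ RegularSpace X ∧
    (∀ U : Set X, IsOpen U → ∀ x ∈ U, ∃ V : Set X, IsClopen V ∧ x ∈ V ∧ V ⊆ U) ∧
    BobWinsPonag X ∧ ¬ TotallyParacompact X :=
  ⟨Tr, inferInstance, tr_infinite, tr_t2, tr_regular, tr_exists_clopen, tr_oneRound.bob, tr_not_tp⟩

end Pool.Agent.Results.MP_74305c_gt.Disproof
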